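import Pool.Agent.H5.EG.Spec2

/-!
# Majorants of power series
-/

set_option autoImplicit false

namespace Pool.Agent.H155.EG

open PowerSeries Pool.Agent.H5.EG

theorem maj_mul (a a' R : ℝ) (p p' : ℕ) (h h' : PowerSeries ℂ) (ha : 0 ≤ a) (ha' : 0 ≤ a')
    (hR : 0 < R) (hm : Maj a p R h) (hm' : Maj a' p' R h') :
    Maj (a * a') (p + p' + 1) R (h * h') := by
  intro n
  rw [PowerSeries.coeff_mul]
  have h1 : ∀ q ∈ Finset.HasAntidiagonal.antidiagonal n,
      ‖PowerSeries.coeff q.1 h * PowerSeries.coeff q.2 h'‖ * R ^ n ≤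
        a * a' * ((n : ℝ) + 1) ^ (p + p') := by
    intro q hq
    have hq' := Finset.HasAntidiagonal.mem_antidiagonal.1 hq
    have h2 : ‖PowerSeries.coeff q.1 h * PowerSeries.coeff q.2 h'‖ * R ^ n =
        (‖PowerSeries.coeff q.1 h‖ * R ^ q.1) * (‖PowerSeries.coeff q.2 h'‖ * R ^ q.2) := by
      rw [← hq', norm_mul, pow_add]; ring
    rw [h2]
    have hq1 : (q.1 : ℝ) + 1 ≤ n + 1 := by
      have : q.1 ≤ n := by omega
      have : (q.1 : ℝ) ≤ n := by exact_mod_cast this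
      linarith
    have hq2 : (q.2 : ℝ) + 1 ≤ n + 1 := by
      have : q.2 ≤ n := by omega
      have : (q.2 : ℝ) ≤ n := by exact_mod_cast this
      linarith
    calc (‖PowerSeries.coeff q.1 h‖ * R ^ q.1) * (‖PowerSeries.coeff q.2 h'‖ * R ^ q.2)
        ≤ (a * ((q.1 : ℝ) + 1) ^ p) * (a' * ((q.2 : ℝ) + 1) ^ p') := by
          apply mul_le_mul (hm q.1) (hm' q.2) (by positivity) (by positivity)
      _ ≤ (a * ((n : ℝ) + 1) ^ p) * (a' * ((n : ℝ) + 1) ^ p') := by gcongr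
      _ = a * a' * ((n : ℝ) + 1) ^ (p + p') := by rw [pow_add]; ring
  calc ‖∑ q ∈ Finset.HasAntidiagonal.antidiagonal n,
        PowerSeries.coeff q.1 h * PowerSeries.coeff q.2 h'‖ * R ^ n
      ≤ (∑ q ∈ Finset.HasAntidiagonal.antidiagonal n,
        ‖PowerSeries.coeff q.1 h * PowerSeries.coeff q.2 h'‖) * R ^ n := by
        gcongr
        exact norm_sum_le _ _
    _ = ∑ q ∈ Finset.HasAntidiagonal.antidiagonal n,
        ‖PowerSeries.coeff q.1 h * PowerSeries.coeff q.2 h'‖ * R ^ n := by rw [Finset.sum_mul]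
    _ ≤ ∑ q ∈ Finset.HasAntidiagonal.antidiagonal n, a * a' * ((n : ℝ) + 1) ^ (p + p') :=
        Finset.sum_le_sum h1
    _ = a * a' * ((n : ℝ) + 1) ^ (p + p' + 1) := by
        rw [Finset.sum_const, Finset.Nat.card_antidiagonal, nsmul_eq_mul]
        push_cast
        ring

theorem maj_ev (a R ρ : ℝ) (p : ℕ) (h : PowerSeries ℂ) (x : ℂ) (ha : 0 ≤ a) (hρ : 0 ≤ ρ)
    (hρR : ρ < R) (hm : Maj a p R h) (hx : ‖x‖ ≤ ρ) :
    ‖ev h x‖ ≤ a * p.factorial / (1 - ρ / R) ^ (p + 1) := by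
  have hR : 0 < R := hρ.trans_lt hρR
  have hq0 : 0 ≤ ρ / R := by positivity
  have hq1 : ρ / R < 1 := (div_lt_one hR).2 hρR
  have hs := hasSum_choose_mul_geometric_of_norm_lt_one p (r := ρ / R)
    (by rwa [Real.norm_of_nonneg hq0])
  have hs2 := hs.mul_left (a * p.factorial)
  rw [mul_one_div] at hs2
  unfold ev
  refine tsum_of_norm_bounded hs2 fun n => ?_
  rw [norm_mul, norm_pow]
  have h1 : ((n : ℝ) + 1) ^ p ≤ p.factorial * ((n + p).choose p : ℝ) := by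
    have h2 : (n + 1) ^ p ≤ p.factorial * (n + p).choose p := by
      rw [← Nat.ascFactorial_eq_factorial_mul_choose]
      exact Nat.pow_succ_le_ascFactorial _ _
    exact_mod_cast h2
  calc ‖PowerSeries.coeff n h‖ * ‖x‖ ^ n ≤ ‖PowerSeries.coeff n h‖ * ρ ^ n := by gcongr
    _ = (‖PowerSeries.coeff n h‖ * R ^ n) * (ρ / R) ^ n := by
        rw [mul_assoc, ← mul_pow, mul_div_cancel₀ _ hR.ne']
    _ ≤ (a * ((n : ℝ) + 1) ^ p) * (ρ / R) ^ n := by
        apply mul_le_mul_of_nonneg_right (hm n) (by positivity)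
    _ ≤ (a * (p.factorial * ((n + p).choose p : ℝ))) * (ρ / R) ^ n := by gcongr
    _ = a * p.factorial * (((n + p).choose p : ℝ) * (ρ / R) ^ n) := by ring

theorem maj : S_maj := ⟨maj_mul, maj_ev⟩

theorem Gbound (h : S_maj) : S_Gbound := by
  intro g τ R hτ hR hg i
  induction i with
  | zero =>
    intro n
    rw [G, PowerSeries.coeff_one]
    split_ifs with h0
    · subst h0; simp
    · simp
  | succ i ih =>
    have hgm : Maj (2 * τ) 1 R g := by
      intro n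
      rw [pow_one]
      exact hg n
    have h1 := h.1 (2 * τ) ((1 + 2 * τ) ^ i) R 1 (2 * i) g (G g i) (by positivity) (by positivity)
      hR hgm ih
    intro n
    rw [G, map_add, coeff_D]
    have h2 := h1 n
    have h3 := ih n
    have h4 : ‖(n : ℂ) * PowerSeries.coeff n (G g i)‖ * R ^ n ≤
        (1 + 2 * τ) ^ i * ((n : ℝ) + 1) ^ (2 * (i + 1)) := by
      rw [norm_mul, Complex.norm_natCast]
      have hn : (0 : ℝ) ≤ n := Nat.cast_nonneg n
      calc (n : ℝ) * ‖PowerSeries.coeff n (G g i)‖ * R ^ n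
          = n * (‖PowerSeries.coeff n (G g i)‖ * R ^ n) := by ring
        _ ≤ n * ((1 + 2 * τ) ^ i * ((n : ℝ) + 1) ^ (2 * i)) := by gcongr
        _ ≤ ((n : ℝ) + 1) ^ 2 * ((1 + 2 * τ) ^ i * ((n : ℝ) + 1) ^ (2 * i)) := by
            gcongr
            nlinarith
        _ = (1 + 2 * τ) ^ i * ((n : ℝ) + 1) ^ (2 * (i + 1)) := by ring
    have h5 : 2 * τ * (1 + 2 * τ) ^ i * ((n : ℝ) + 1) ^ (1 + 2 * i + 1) =
        2 * τ * ((1 + 2 * τ) ^ i * ((n : ℝ) + 1) ^ (2 * (i + 1))) := by ring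
    rw [h5] at h2
    calc ‖(n : ℂ) * PowerSeries.coeff n (G g i) + PowerSeries.coeff n (g * G g i)‖ * R ^ n
        ≤ (‖(n : ℂ) * PowerSeries.coeff n (G g i)‖ + ‖PowerSeries.coeff n (g * G g i)‖) * R ^ n := by
          gcongr
          exact norm_add_le _ _
      _ = ‖(n : ℂ) * PowerSeries.coeff n (G g i)‖ * R ^ n +
          ‖PowerSeries.coeff n (g * G g i)‖ * R ^ n := by ring
      _ ≤ (1 + 2 * τ) ^ i * ((n : ℝ) + 1) ^ (2 * (i + 1)) +
          2 * τ * ((1 + 2 * τ) ^ i * ((n : ℝ) + 1) ^ (2 * (i + 1))) := add_le_add h4 h2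
      _ = (1 + 2 * τ) ^ (i + 1) * ((n : ℝ) + 1) ^ (2 * (i + 1)) := by rw [pow_succ]; ring

end Pool.Agent.H155.EG
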